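import Pool.Agent.H88.CR.Targets

set_option autoImplicit false

open Filter Topology Set

namespace Pool.Agent.H79.CRV

open Pool.Agent.H88.CR

theorem pf_DFE (𝕜 : Type) [RCLike 𝕜] : T_DFE 𝕜 := by
  intro F _ _ F' _ _ e φ c ε κ M h
  have hbdd : ∀ y : F', BddAbove (Set.range fun n => c n *
      Real.sqrt (‖φ n (e y)‖ ^ 2 + (ε * ‖e y‖) ^ 2)) := by
    intro y
    refine ⟨Real.sqrt ((M * ‖e y‖) ^ 2 + (ε * ‖e y‖) ^ 2), ?_⟩
    rintro _ ⟨n, rfl⟩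
    have h1 : ‖φ n (e y)‖ ≤ M * ‖e y‖ :=
      ((φ n).le_opNorm (e y)).trans (mul_le_mul_of_nonneg_right (h.hφ n) (norm_nonneg _))
    have h2 : Real.sqrt (‖φ n (e y)‖ ^ 2 + (ε * ‖e y‖) ^ 2)
        ≤ Real.sqrt ((M * ‖e y‖) ^ 2 + (ε * ‖e y‖) ^ 2) := by
      apply Real.sqrt_le_sqrt
      have := pow_le_pow_left₀ (norm_nonneg _) h1 2
      linarith
    have h3 : 0 ≤ c n := le_trans h.κ0.le (h.c0 n)
    calc c n * Real.sqrt (‖φ n (e y)‖ ^ 2 + (ε * ‖e y‖) ^ 2)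
        ≤ 1 * Real.sqrt (‖φ n (e y)‖ ^ 2 + (ε * ‖e y‖) ^ 2) :=
          mul_le_mul_of_nonneg_right (h.c1 n) (Real.sqrt_nonneg _)
      _ ≤ _ := by rw [one_mul]; exact h2
  have hle : ∀ (y : F') (n : ℕ), c n * Real.sqrt (‖φ n (e y)‖ ^ 2 + (ε * ‖e y‖) ^ 2) ≤ ‖y‖ := by
    intro y n
    rw [h.norm y]
    exact le_ciSup (hbdd y) n
  have hsq : ∀ (y : F') (n : ℕ), ‖y‖ ≤ 1 →
      c n ^ 2 * (‖φ n (e y)‖ ^ 2 + (ε * ‖e y‖) ^ 2) ≤ 1 := by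
    intro y n hy
    have h0 : 0 ≤ c n := le_trans h.κ0.le (h.c0 n)
    have h1 := hle y n
    have h2 : 0 ≤ c n * Real.sqrt (‖φ n (e y)‖ ^ 2 + (ε * ‖e y‖) ^ 2) :=
      mul_nonneg h0 (Real.sqrt_nonneg _)
    have h3 := pow_le_pow_left₀ h2 (h1.trans hy) 2
    rw [mul_pow, Real.sq_sqrt (by positivity)] at h3
    linarith
  refine ⟨?_, ?_⟩
  · intro y
    refine le_trans ?_ (hle y 0)
    have h1 : ε * ‖e y‖ ≤ Real.sqrt (‖φ 0 (e y)‖ ^ 2 + (ε * ‖e y‖) ^ 2) := by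
      apply Real.le_sqrt_of_sq_le
      have := sq_nonneg ‖φ 0 (e y)‖
      linarith
    calc κ * ε * ‖e y‖ = κ * (ε * ‖e y‖) := by ring
      _ ≤ c 0 * (ε * ‖e y‖) :=
        mul_le_mul_of_nonneg_right (h.c0 0) (mul_nonneg h.ε0.le (norm_nonneg _))
      _ ≤ _ := mul_le_mul_of_nonneg_left h1 (le_trans h.κ0.le (h.c0 0))
  · intro x y hx hy
    have hD : 0 ≤ Df (e x) (e y) := by
      unfold Df
      have h1 := norm_add_le (e x) (e y)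
      have h2 := pow_le_pow_left₀ (norm_nonneg _) h1 2
      nlinarith [sq_nonneg (‖e x‖ - ‖e y‖)]
    have key : ∀ n, c n ^ 2 * (‖φ n (e (x + y))‖ ^ 2 + (ε * ‖e (x + y)‖) ^ 2)
        ≤ 4 - (κ * ε) ^ 2 * Df (e x) (e y) := by
      intro n
      have h1 := hsq x n hx
      have h2 := hsq y n hy
      have h3 : ‖φ n (e (x + y))‖ ^ 2 ≤ 2 * ‖φ n (e x)‖ ^ 2 + 2 * ‖φ n (e y)‖ ^ 2 := by
        rw [map_add, map_add]
        have h4 := pow_le_pow_left₀ (norm_nonneg _) (norm_add_le (φ n (e x)) (φ n (e y))) 2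
        nlinarith [sq_nonneg (‖φ n (e x)‖ - ‖φ n (e y)‖)]
      have h4 : ‖e (x + y)‖ ^ 2 = 2 * ‖e x‖ ^ 2 + 2 * ‖e y‖ ^ 2 - Df (e x) (e y) := by
        rw [map_add]; unfold Df; ring
      have h5 : κ ^ 2 ≤ c n ^ 2 := pow_le_pow_left₀ h.κ0.le (h.c0 n) 2
      have h6 : (κ * ε) ^ 2 * Df (e x) (e y) ≤ c n ^ 2 * (ε ^ 2 * Df (e x) (e y)) := by
        have := mul_le_mul_of_nonneg_right h5 (mul_nonneg (sq_nonneg ε) hD)
        nlinarith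
      have h7 : c n ^ 2 * ‖φ n (e (x + y))‖ ^ 2
          ≤ c n ^ 2 * (2 * ‖φ n (e x)‖ ^ 2 + 2 * ‖φ n (e y)‖ ^ 2) :=
        mul_le_mul_of_nonneg_left h3 (sq_nonneg _)
      have h8 : (ε * ‖e (x + y)‖) ^ 2
          = 2 * (ε * ‖e x‖) ^ 2 + 2 * (ε * ‖e y‖) ^ 2 - ε ^ 2 * Df (e x) (e y) := by
        rw [mul_pow, h4]; ring
      rw [h8]
      nlinarith
    have h0 : 0 ≤ 4 - (κ * ε) ^ 2 * Df (e x) (e y) :=
      le_trans (by positivity) (key 0)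
    have hs : ‖x + y‖ ≤ Real.sqrt (4 - (κ * ε) ^ 2 * Df (e x) (e y)) := by
      rw [h.norm (x + y)]
      apply ciSup_le
      intro n
      apply Real.le_sqrt_of_sq_le
      rw [mul_pow, Real.sq_sqrt (by positivity)]
      exact key n
    have h9 := pow_le_pow_left₀ (norm_nonneg _) hs 2
    rw [Real.sq_sqrt h0] at h9
    linarith

end Pool.Agent.H79.CRV
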